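import Pool.Agent.MWI.StmtsT

/-!
# MWI row GMN: the letters `y` of the main block can be made adjacent
-/

set_option autoImplicit false

namespace Pool.Agent.MWI.H27G

open Pool.Agent.Helper14_MV Pool.Agent.Helper2_MV Pool.Agent.MWF

variable {β : FIC}

theorem zz_append (u v : List ℕ) : zz (u ++ v) = zz u ++ zz v := by
  unfold zz
  rw [List.map_append]

theorem zz_nodup {u : List ℕ} (h : u.Nodup) : (zz u).Nodup := by
  unfold zz
  exact h.map (fun a b hab => by
    have : 3 * a + 2 = 3 * b + 2 := hab
    omega)

theorem zero_zz (u : List ℕ) : 0 ∉ zz u := by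
  unfold zz
  intro h
  obtain ⟨i, _, hi⟩ := List.mem_map.1 h
  omega

theorem mem_zz {u : List ℕ} {x : ℕ} (h : x ∈ zz u) : ∃ i ∈ u, x = 3 * i + 2 := by
  unfold zz at h
  obtain ⟨i, h1, hi⟩ := List.mem_map.1 h
  exact ⟨i, h1, hi.symm⟩

theorem zz_length (u : List ℕ) : (zz u).length = u.length := by
  unfold zz
  rw [List.length_map]

/-- moving `0^k` over a short word -/
theorem mv {m : ℕ} (hF : Fdk β m) (c : List ℕ) (hc : c.length ≤ m) (hn : c.Nodup) (h0 : 0 ∉ c) :
    ∀ (k : ℕ) (P Q : List ℕ), (∀ a ∈ c, a ∈ P ∨ a ∈ Q) →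
    RR β (P ++ (List.replicate k 0 ++ (c ++ 0 :: Q)))
      (P ++ (c ++ (List.replicate (k + 1) 0 ++ Q))) := by
  intro k
  induction k with
  | zero =>
    intro P Q _
    simpa using RR.refl (β := β) (P ++ (c ++ 0 :: Q))
  | succ k ih =>
    intro P Q h
    have h1 := hF (P ++ List.replicate k 0) c Q 0 hc hn h0 (fun a ha => by
      rcases h a ha with g | g
      · exact Or.inl (List.mem_append_left _ g)
      · exact Or.inr g)
    have h2 := ih P (0 :: Q) (fun a ha => by
      rcases h a ha with g | g
      · exact Or.inl g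
      · exact Or.inr (List.mem_cons_of_mem _ g))
    have e1 : P ++ (List.replicate (k + 1) 0 ++ (c ++ 0 :: Q)) =
        P ++ List.replicate k 0 ++ 0 :: (c ++ 0 :: Q) := by
      rw [List.replicate_succ', List.append_assoc, List.append_assoc]
      rfl
    have e2 : P ++ (List.replicate k 0 ++ (c ++ 0 :: 0 :: Q)) =
        P ++ List.replicate k 0 ++ (c ++ 0 :: 0 :: Q) := by
      rw [List.append_assoc]
    have e3 : P ++ (c ++ (List.replicate (k + 1 + 1) 0 ++ Q)) =
        P ++ (c ++ (List.replicate (k + 1) 0 ++ 0 :: Q)) := by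
      rw [List.replicate_succ' (n := k + 1), List.append_assoc]
      rfl
    rw [e1, e3]
    rw [e2] at h2
    exact rtr h1 h2

theorem gather {m : ℕ} (hF : Fdk β m) (C : List ℕ) : ∀ (N : ℕ) (M P h : List ℕ) (k : ℕ),
    M.count 0 = N → M.filter ny = zz h → h.length ≤ m → h.Nodup →
    (∀ i ∈ h, 3 * i + 2 ∈ P ∨ 3 * i + 2 ∈ C) →
    ∃ (u v : List ℕ), h = u ++ v ∧
      RR β (P ++ (List.replicate k 0 ++ (M ++ C)))
        (P ++ (zz u ++ (List.replicate (k + N) 0 ++ (zz v ++ C)))) ∧
      (N = 0 → u = []) ∧ (k = 0 → N = 1 → M = zz u ++ 0 :: zz v) := by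
  intro N
  induction N with
  | zero =>
    intro M P h k hN hM _ _ _
    have h0 : 0 ∉ M := List.count_eq_zero.1 hN
    have e : M = zz h := by
      rw [← hM]
      symm
      rw [List.filter_eq_self]
      intro x hx
      unfold ny
      rw [decide_eq_true_eq]
      rintro rfl
      exact h0 hx
    refine ⟨[], h, rfl, ?_, fun _ => rfl, fun _ h1 => by omega⟩
    rw [e]
    exact RR.refl _
  | succ N ih =>
    intro M P h k hN hM hl hn hmem
    have h0 : 0 ∈ M := by
      by_contra hcon
      rw [List.count_eq_zero.2 hcon] at hN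
      omega
    obtain ⟨c, M3, e, hc⟩ := List.eq_append_cons_of_mem h0
    have hc1 : c.filter ny = c := by
      rw [List.filter_eq_self]
      intro x hx
      unfold ny
      rw [decide_eq_true_eq]
      rintro rfl
      exact hc hx
    have hf : c ++ M3.filter ny = zz h := by
      rw [← hM, e, List.filter_append, hc1, List.filter_cons_of_neg (by decide)]
    obtain ⟨u1, h3, e2, e3, e4⟩ := List.map_eq_append_iff.1 hf.symm
    have hN3 : M3.count 0 = N := by
      rw [e, List.count_append, List.count_eq_zero.2 hc, List.count_cons_self] at hN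
      omega
    have hlen : u1.length ≤ m ∧ h3.length ≤ m := by
      rw [e2, List.length_append] at hl
      omega
    have hn' := hn
    rw [e2, List.nodup_append] at hn'
    have hcz : c = zz u1 := e3.symm
    obtain ⟨u, v, g1, g2, g3, g4⟩ := ih M3 (P ++ zz u1) h3 (k + 1) hN3 e4.symm hlen.2 hn'.2.1
      (fun i hi => by
        rcases hmem i (by rw [e2]; exact List.mem_append_right _ hi) with g | g
        · exact Or.inl (List.mem_append_left _ g)
        · exact Or.inr g)
    refine ⟨u1 ++ u, v, by rw [e2, g1, List.append_assoc], ?_, fun hh => by omega, ?_⟩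
    · have h1 := mv hF (zz u1) (by rw [zz_length]; exact hlen.1) (zz_nodup hn'.1) (zero_zz u1) k P
        (M3 ++ C) (fun a ha => by
          obtain ⟨i, hi, rfl⟩ := mem_zz ha
          rcases hmem i (by rw [e2]; exact List.mem_append_left _ hi) with g | g
          · exact Or.inl g
          · exact Or.inr (List.mem_append_right _ g))
      have a1 : P ++ (List.replicate k 0 ++ (M ++ C)) =
          P ++ (List.replicate k 0 ++ (zz u1 ++ 0 :: (M3 ++ C))) := by
        rw [e, hcz, List.append_assoc]
        rfl
      have a2 : P ++ (zz u1 ++ (List.replicate (k + 1) 0 ++ (M3 ++ C))) =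
          P ++ zz u1 ++ (List.replicate (k + 1) 0 ++ (M3 ++ C)) := by
        rw [List.append_assoc P]
      have a3 : P ++ (zz (u1 ++ u) ++ (List.replicate (k + (N + 1)) 0 ++ (zz v ++ C))) =
          P ++ zz u1 ++ (zz u ++ (List.replicate (k + 1 + N) 0 ++ (zz v ++ C))) := by
        rw [zz_append, List.append_assoc, List.append_assoc P,
          show k + (N + 1) = k + 1 + N by omega]
      rw [a1, a3]
      rw [a2] at h1
      exact rtr h1 g2
    · intro hk hN1
      have hu : u = [] := g3 (by omega)
      have h30 : 0 ∉ M3 := List.count_eq_zero.1 (by omega)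
      have e5 : M3 = zz h3 := by
        have : M3.filter ny = M3 := by
          rw [List.filter_eq_self]
          intro x hx
          unfold ny
          rw [decide_eq_true_eq]
          rintro rfl
          exact h30 hx
        rw [← this]
        exact e4.symm
      rw [hu, List.append_nil, e, hcz, e5, g1, hu, List.nil_append]

/-- the last case: all letters `z` between the letters `0` -/
theorem fin {m : ℕ} (hK : K1 β) (hF : Fdk β (m - 1)) (h A C : List ℕ) (hm : 1 ≤ m)
    (hl : h.length = m) (hn : h.Nodup)
    (hmem : ∀ i ∈ h, 3 * i + 2 ∈ A ∨ 3 * i + 2 ∈ C) (a j : ℕ) (hj : 2 ≤ j) :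
    ∃ k, RR β (A ++ (List.replicate a 0 ++ (zz h ++ (List.replicate j 0 ++ C))))
      (A ++ (zz h ++ (List.replicate k 0 ++ C))) := by
  have hne : h ≠ [] := by
    intro hh
    rw [hh] at hl
    simp at hl
    omega
  obtain ⟨g, l, e⟩ : ∃ g l, h = g ++ [l] := ⟨h.dropLast, h.getLast hne,
    (List.dropLast_append_getLast hne).symm⟩
  have hlm : 3 * l + 2 ∈ A ∨ 3 * l + 2 ∈ C := hmem l (by rw [e]; simp)
  have ez : zz h = zz g ++ [3 * l + 2] := by
    rw [e, zz_append]
    rfl
  by_cases h1 : m = 1
  · have hg : g = [] := by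
      rw [e, List.length_append, h1] at hl
      exact List.length_eq_zero_iff.1 (by simpa using hl)
    refine ⟨a + (j - 1 + 1), ?_⟩
    have h2 := k1pow hK (3 * l + 2) 0 (j - 1) a A C (fun _ => hlm)
    have e3 : zz h = [3 * l + 2] := by rw [ez, hg]; rfl
    rw [e3]
    have e4 : j - 1 + 1 = j := by omega
    rw [e4] at h2 ⊢
    exact h2.symm
  · obtain ⟨b, rfl⟩ : ∃ b, j = b + 2 := ⟨j - 2, by omega⟩
    refine ⟨a + 1 + 1 + b, ?_⟩
    have hgl : g.length = m - 1 := by
      rw [e, List.length_append] at hl
      simp at hl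
      omega
    have hn' := hn
    rw [e, List.nodup_append] at hn'
    -- K1
    have s1 := hK (A ++ (List.replicate a 0 ++ zz g)) (List.replicate b 0 ++ C) (3 * l + 2) 0
      (by omega) (by
        rcases hlm with g | g
        · exact Or.inl (List.mem_append_left _ g)
        · exact Or.inr (List.mem_append_right _ g))
    have s2 := mv hF (zz g) (by rw [zz_length, hgl]) (zz_nodup hn'.1) (zero_zz g) a A
      ((3 * l + 2) :: 0 :: (List.replicate b 0 ++ C)) (fun x hx => by
        obtain ⟨i, hi, rfl⟩ := mem_zz hx
        rcases hmem i (by rw [e]; exact List.mem_append_left _ hi) with g | g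
        · exact Or.inl g
        · exact Or.inr (List.mem_cons_of_mem _ (List.mem_cons_of_mem _
            (List.mem_append_right _ g))))
    have s3 := mv hF [3 * l + 2] (by simp; omega) (List.nodup_singleton _) (by simp)
      (a + 1) (A ++ zz g) (List.replicate b 0 ++ C) (fun x hx => by
        rw [List.mem_singleton] at hx
        subst hx
        rcases hlm with g | g
        · exact Or.inl (List.mem_append_left _ g)
        · exact Or.inr (List.mem_append_right _ g))
    have a1 : A ++ (List.replicate a 0 ++ (zz h ++ (List.replicate (b + 2) 0 ++ C))) =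
        A ++ (List.replicate a 0 ++ zz g) ++
          (3 * l + 2) :: 0 :: 0 :: (List.replicate b 0 ++ C) := by
      rw [ez, List.replicate_succ, List.replicate_succ]
      simp only [List.append_assoc, List.cons_append, List.nil_append]
    have a2 : A ++ (List.replicate a 0 ++ zz g) ++
          0 :: (3 * l + 2) :: 0 :: (List.replicate b 0 ++ C) =
        A ++ (List.replicate a 0 ++ (zz g ++ 0 :: ((3 * l + 2) :: 0 ::
          (List.replicate b 0 ++ C)))) := by
      simp only [List.append_assoc]
    have a3 : A ++ (zz g ++ (List.replicate (a + 1) 0 ++ ((3 * l + 2) :: 0 ::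
          (List.replicate b 0 ++ C)))) =
        A ++ zz g ++ (List.replicate (a + 1) 0 ++ ([3 * l + 2] ++ 0 ::
          (List.replicate b 0 ++ C))) := by
      simp only [List.append_assoc, List.cons_append, List.nil_append]
    have a4 : A ++ zz g ++ ([3 * l + 2] ++ (List.replicate (a + 1 + 1) 0 ++
          (List.replicate b 0 ++ C))) =
        A ++ (zz h ++ (List.replicate (a + 1 + 1 + b) 0 ++ C)) := by
      rw [ez, List.replicate_add (a + 1 + 1) b]
      simp only [List.append_assoc, List.cons_append, List.nil_append]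
    rw [a1, ← a4]
    rw [a2] at s1
    rw [a3] at s2
    exact rtr s1 (rtr s2 s3)

theorem gmn : GmnStmt := by
  intro n β hT m h M A C hm hF hp hM hne hmem
  have hl : h.length = m := by rw [hp.length_eq, List.length_range]
  have hn : h.Nodup := hp.nodup_iff.2 List.nodup_range
  have hmem' : ∀ i ∈ h, 3 * i + 2 ∈ A ∨ 3 * i + 2 ∈ C := fun i hi =>
    hmem i (List.mem_range.1 (hp.mem_iff.1 hi))
  obtain ⟨h0, hr, eh⟩ : ∃ h0 hr, h = h0 :: hr := by
    cases h with
    | nil => simp at hl; omega
    | cons a b => exact ⟨a, b, rfl⟩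
  have hM' : M.filter ny = (3 * h0 + 2) :: zz hr := by
    rw [hM, eh]
    rfl
  obtain ⟨l1, l2, e1, h1, _, h2⟩ := List.filter_eq_cons_iff.1 hM'
  have hl1 : l1 = List.replicate l1.length 0 := by
    rw [List.eq_replicate_iff]
    refine ⟨rfl, fun x hx => ?_⟩
    have := h1 x hx
    unfold ny at this
    rw [decide_eq_true_eq, not_not] at this
    exact this
  set a := l1.length with ha
  have hn' := hn
  rw [eh, List.nodup_cons] at hn'
  obtain ⟨u, v, g1, g2, _, g4⟩ := gather hF C _ l2 (A ++ (List.replicate a 0 ++ [3 * h0 + 2])) hr 0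
    rfl h2 (by rw [eh, List.length_cons] at hl; omega) hn'.2 (fun i hi => by
      rcases hmem' i (by rw [eh]; exact List.mem_cons_of_mem _ hi) with g | g
      · exact Or.inl (List.mem_append_left _ g)
      · exact Or.inr g)
  set j := l2.count 0 with hj
  have k1 : A ++ (M ++ C) = A ++ (List.replicate a 0 ++ [3 * h0 + 2]) ++
      (List.replicate 0 0 ++ (l2 ++ C)) := by
    rw [e1, ← hl1]
    simp only [List.append_assoc, List.cons_append, List.nil_append, List.replicate_zero]
  have k2 : A ++ (List.replicate a 0 ++ [3 * h0 + 2]) ++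
      (zz u ++ (List.replicate (0 + j) 0 ++ (zz v ++ C))) =
      A ++ (List.replicate a 0 ++ (zz (h0 :: u) ++ (List.replicate j 0 ++ (zz v ++ C)))) := by
    have : zz (h0 :: u) = (3 * h0 + 2) :: zz u := rfl
    rw [this, Nat.zero_add]
    simp only [List.append_assoc, List.cons_append, List.nil_append]
  rw [← k1, k2] at g2
  by_cases hj0 : j = 0
  · refine ⟨[], h, a, rfl, ?_⟩
    have : A ++ (List.replicate a 0 ++ (zz (h0 :: u) ++ (List.replicate j 0 ++ (zz v ++ C)))) =
        A ++ ((zz [] ++ (List.replicate a 0 ++ zz h)) ++ C) := by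
      have e2 : zz h = zz (h0 :: u) ++ zz v := by
        rw [← zz_append, eh, g1]
        rfl
      have e3 : zz [] = [] := rfl
      rw [e2, e3, hj0]
      simp only [List.append_assoc, List.nil_append, List.replicate_zero]
    rw [← this]
    exact g2
  by_cases ha0 : a = 0
  · refine ⟨h0 :: u, v, j, by rw [eh, g1]; rfl, ?_⟩
    have : A ++ (List.replicate a 0 ++ (zz (h0 :: u) ++ (List.replicate j 0 ++ (zz v ++ C)))) =
        A ++ ((zz (h0 :: u) ++ (List.replicate j 0 ++ zz v)) ++ C) := by
      rw [ha0]
      simp only [List.append_assoc, List.nil_append, List.replicate_zero]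
    rw [← this]
    exact g2
  have hlen : hr.length = m - 1 := by
    rw [eh, List.length_cons] at hl
    omega
  by_cases hv : v = []
  swap
  · -- `v ≠ []`
    obtain ⟨j', hj'⟩ : ∃ j', j = j' + 1 := ⟨j - 1, by omega⟩
    refine ⟨h0 :: u, v, a + 1 + j', by rw [eh, g1]; rfl, ?_⟩
    have hvl : 1 ≤ v.length := by
      rcases Nat.eq_zero_or_pos v.length with g | g
      · exact absurd (List.length_eq_zero_iff.1 g) hv
      · exact g
    have hcl : (h0 :: u).length ≤ m - 1 := by
      rw [g1, List.length_append] at hlen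
      rw [List.length_cons]
      omega
    have hcn : (h0 :: u).Nodup := by
      have h3 := hn
      rw [eh, g1, ← List.cons_append, List.nodup_append] at h3
      exact h3.1
    have s := mv hF (zz (h0 :: u)) (by rw [zz_length]; exact hcl) (zz_nodup hcn)
      (zero_zz _) a A (List.replicate j' 0 ++ (zz v ++ C)) (fun x hx => by
        obtain ⟨i, hi, rfl⟩ := mem_zz hx
        have hi' : i ∈ h := by
          rw [eh, g1]
          rcases List.mem_cons.1 hi with g | g
          · rw [g]; exact List.mem_cons_self
          · exact List.mem_cons_of_mem _ (List.mem_append_left _ g)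
        rcases hmem' i hi' with g | g
        · exact Or.inl g
        · exact Or.inr (List.mem_append_right _ (List.mem_append_right _ g)))
    have b1 : A ++ (List.replicate a 0 ++ (zz (h0 :: u) ++ (List.replicate j 0 ++ (zz v ++ C)))) =
        A ++ (List.replicate a 0 ++ (zz (h0 :: u) ++ 0 :: (List.replicate j' 0 ++ (zz v ++ C)))) := by
      rw [hj', List.replicate_succ]
      rfl
    have b2 : A ++ ((zz (h0 :: u) ++ (List.replicate (a + 1 + j') 0 ++ zz v)) ++ C) =
        A ++ (zz (h0 :: u) ++ (List.replicate (a + 1) 0 ++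
          (List.replicate j' 0 ++ (zz v ++ C)))) := by
      rw [List.replicate_add (a + 1) j']
      simp only [List.append_assoc]
    rw [b2]
    rw [b1] at g2
    exact rtr g2 s
  -- `v = []`
  have ehu : h = h0 :: u := by rw [eh, g1, hv, List.append_nil]
  have b0 : A ++ (List.replicate a 0 ++ (zz (h0 :: u) ++ (List.replicate j 0 ++ (zz v ++ C)))) =
      A ++ (List.replicate a 0 ++ (zz h ++ (List.replicate j 0 ++ C))) := by
    rw [hv, ehu]
    rfl
  rw [b0] at g2
  have key : ∀ j2, 2 ≤ j2 →
      RR β (A ++ (M ++ C)) (A ++ (List.replicate a 0 ++ (zz h ++ (List.replicate j2 0 ++ C)))) →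
      ∃ (h1 h2 : List ℕ) (k : ℕ), h = h1 ++ h2 ∧
      RR β (A ++ (M ++ C)) (A ++ ((zz h1 ++ (List.replicate k 0 ++ zz h2)) ++ C)) := by
    intro j2 hj2 h3
    obtain ⟨k, hk⟩ := fin hT.k1 hF h A C hm hl hn hmem' a j2 hj2
    refine ⟨h, [], k, by rw [List.append_nil], ?_⟩
    have : A ++ ((zz h ++ (List.replicate k 0 ++ zz [])) ++ C) =
        A ++ (zz h ++ (List.replicate k 0 ++ C)) := by
      have e3 : zz [] = [] := rfl
      rw [e3]
      simp only [List.append_assoc, List.append_nil]
    rw [this]
    exact rtr h3 hk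
  by_cases hj1 : j = 1
  · have e3 := g4 rfl hj1
    have e4 : M = List.replicate a 0 ++ (zz h ++ [0]) := by
      rw [e1, ← hl1, e3, hv, ehu]
      have : zz (h0 :: u) = (3 * h0 + 2) :: zz u := rfl
      rw [this]
      rfl
    have ha2 : 2 ≤ a := by
      by_contra hcon
      have : a = 1 := by omega
      apply hne
      rw [e4, this]
      rfl
    obtain ⟨a', ha'⟩ : ∃ a', a = a' + 2 := ⟨a - 2, by omega⟩
    refine key (n + 1) (by have := hT.pos; omega) ?_
    have s := hT.rn.sub (fun i => if i = 0 then [0] else zz h)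
    have f1 : [0, 0, 1, 0].flatMap (fun i => if i = 0 then [0] else zz h) =
        [0, 0] ++ (zz h ++ [0]) := by simp
    have f2 : ([0, 0, 1] ++ List.replicate (n + 1) 0).flatMap
        (fun i => if i = 0 then [0] else zz h) =
        [0, 0] ++ (zz h ++ List.replicate (n + 1) 0) := by
      rw [List.flatMap_append]
      have : (List.replicate (n + 1) 0).flatMap (fun i => if i = 0 then [0] else zz h) =
          List.replicate (n + 1) 0 := by
        generalize n + 1 = N
        induction N with
        | zero => rfl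
        | succ N ih =>
          rw [List.replicate_succ, List.flatMap_cons, ih]
          rfl
      rw [this]
      simp
    rw [f1, f2] at s
    have s2 := ctx (A ++ List.replicate a' 0) C s
    have c1 : A ++ List.replicate a' 0 ++ ([0, 0] ++ (zz h ++ [0])) ++ C = A ++ (M ++ C) := by
      rw [e4, ha', List.replicate_add a' 2]
      simp only [List.append_assoc]
      rfl
    have c2 : A ++ List.replicate a' 0 ++ ([0, 0] ++ (zz h ++ List.replicate (n + 1) 0)) ++ C =
        A ++ (List.replicate a 0 ++ (zz h ++ (List.replicate (n + 1) 0 ++ C))) := by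
      rw [ha', List.replicate_add a' 2]
      simp only [List.append_assoc]
      rfl
    rw [c1, c2] at s2
    exact s2
  · exact key j (by omega) g2

end Pool.Agent.MWI.H27G
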