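import Pool.Agent.MWI.StmtsE
import Pool.Agent.Helper10_MVD.LIN

/-!
# MWI row SKE: the skeleton
-/

set_option autoImplicit false

namespace Pool.Agent.MWI.H27

open Pool.Agent.Helper14_MV Pool.Agent.Helper2_MV Pool.Agent.MWF

/-- separators -/
def sp (c : ℕ) : Bool := decide (c % 3 = 1)

/-- the number of letters `c` before the first `t` -/
def bf (t c : ℕ) (l : List ℕ) : ℕ := (l.takeWhile (fun x => decide (x ≠ t))).count c

theorem bf_filter (p : ℕ → Bool) {t c : ℕ} (ht : p t = true) (hc : p c = true) (l : List ℕ) :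
    bf t c (l.filter p) = bf t c l := by
  induction l with
  | nil => rfl
  | cons a l ih =>
    unfold bf at ih ⊢
    by_cases ha : p a = true
    · rw [List.filter_cons_of_pos ha]
      by_cases hat : a = t
      · subst hat
        rw [List.takeWhile_cons_of_neg (by simp), List.takeWhile_cons_of_neg (by simp)]
      · rw [List.takeWhile_cons_of_pos (by simp [hat]), List.takeWhile_cons_of_pos (by simp [hat]),
          List.count_cons, List.count_cons, ih]
    · rw [List.filter_cons_of_neg (by simpa using ha)]
      have hat : a ≠ t := fun e => ha (e ▸ ht)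
      have hac : a ≠ c := fun e => ha (e ▸ hc)
      rw [List.takeWhile_cons_of_pos (by simp [hat]), List.count_cons_of_ne hac, ih]

theorem bf_notMem {t : ℕ} (c : ℕ) {l : List ℕ} (h : t ∉ l) : bf t c l = l.count c := by
  unfold bf
  congr 1
  rw [List.takeWhile_eq_self_iff]
  intro x hx
  rw [decide_eq_true_eq]
  rintro rfl
  exact h hx

theorem bf_app {t : ℕ} (c : ℕ) : ∀ (A l : List ℕ), t ∉ A → bf t c (A ++ l) = A.count c + bf t c l := by
  intro A l
  induction A with
  | nil => intro _; simp
  | cons a A ih =>
    intro h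
    rw [List.mem_cons, not_or] at h
    have ih' := ih h.2
    unfold bf at ih' ⊢
    rw [List.cons_append, List.takeWhile_cons_of_pos (by simpa using Ne.symm h.1), List.count_cons,
      List.count_cons, ih']
    omega

theorem bf_self (t c : ℕ) (l : List ℕ) : bf t c (t :: l) = 0 := by
  unfold bf
  rw [List.takeWhile_cons_of_neg (by simp)]
  rfl

/-- the same separators, the same numbers of letters before every separator -/
structure Same (v w : List ℕ) : Prop where
  sep : v.filter sp = w.filter sp
  nd : (w.filter sp).Nodup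
  cnt : ∀ c, v.count c = w.count c
  bf : ∀ t c, sp t = true → bf t c v = bf t c w

theorem step {A w v : List ℕ} {t : ℕ} (hA : ∀ c ∈ A, sp c = false) (ht : sp t = true)
    (h : Same v (A ++ t :: w)) : ∃ A' v', v = A' ++ t :: v' ∧ A'.Perm A ∧ Same v' w := by
  have e0 : (A ++ t :: w).filter sp = t :: w.filter sp := by
    rw [List.filter_append, List.filter_cons_of_pos ht]
    have : A.filter sp = [] := by
      rw [List.filter_eq_nil_iff]
      intro a ha
      rw [hA a ha]
      simp
    rw [this, List.nil_append]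
  have h1 := h.sep
  rw [e0] at h1
  obtain ⟨A', v', e1, h2, _, h3⟩ := List.filter_eq_cons_iff.1 h1
  have hnd := h.nd
  rw [e0, List.nodup_cons] at hnd
  have tA : t ∉ A := fun hm => by
    have := hA t hm
    rw [ht] at this
    exact absurd this (by decide)
  have tA' : t ∉ A' := fun hm => h2 t hm ht
  have hc : ∀ c, A'.count c = A.count c := by
    intro c
    have h4 := h.bf t c ht
    rw [e1, bf_app c _ _ tA', bf_app c _ _ tA, bf_self, bf_self] at h4
    simpa using h4
  have hcnt : ∀ c, v'.count c = w.count c := by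
    intro c
    have h4 := h.cnt c
    have h5 := hc c
    rw [e1, List.count_append, List.count_append, List.count_cons, List.count_cons] at h4
    omega
  refine ⟨A', v', e1, List.perm_iff_count.2 hc, ⟨h3, hnd.2, hcnt, ?_⟩⟩
  intro t' c ht'
  by_cases hne : t' = t
  · subst hne
    have g1 : t' ∉ w := fun hm => hnd.1 (List.mem_filter.2 ⟨hm, ht'⟩)
    have g2 : t' ∉ v' := fun hm => by
      have : t' ∈ v'.filter sp := List.mem_filter.2 ⟨hm, ht'⟩
      rw [h3] at this
      exact hnd.1 this
    rw [bf_notMem c g1, bf_notMem c g2, hcnt]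
  · have h4 := h.bf t' c ht'
    have n1 : t' ∉ A := fun hm => by
      have := hA t' hm
      rw [ht'] at this
      exact absurd this (by decide)
    have n2 : t' ∉ A' := fun hm => h2 t' hm ht'
    have a1 : ∀ l, bf t' c (t :: l) = [t].count c + bf t' c l := by
      intro l
      have := bf_app (t := t') c [t] l (by simp [hne])
      simpa using this
    rw [e1, bf_app c _ _ n2, bf_app c _ _ n1, a1, a1, hc] at h4
    omega

theorem last {A v : List ℕ} (h : Same v A) : v.Perm A := List.perm_iff_count.2 h.cnt

theorem zz_perm {A D : List ℕ} (h : A.Perm (zz D)) : ∃ D', D'.Perm D ∧ A = zz D' := by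
  refine ⟨A.map (fun c => c / 3), ?_, ?_⟩
  · have h1 := h.map (fun c => c / 3)
    have h2 : (zz D).map (fun c => c / 3) = D := by
      unfold zz
      rw [List.map_map]
      have : ((fun c => c / 3) ∘ fun i : ℕ => 3 * i + 2) = id := by
        funext i
        simp only [Function.comp_apply, id]
        omega
      rw [this, List.map_id]
    rwa [h2] at h1
  · unfold zz
    rw [List.map_map]
    symm
    have : ∀ a ∈ A, ((fun i => 3 * i + 2) ∘ fun c => c / 3) a = a := by
      intro a ha
      have := h.mem_iff.1 ha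
      unfold zz at this
      obtain ⟨i, _, hi⟩ := List.mem_map.1 this
      simp only [Function.comp_apply]
      omega
    conv_rhs => rw [← List.map_id A]
    exact List.map_congr_left this

theorem sp_z (i : ℕ) : sp (3 * i + 2) = false := by
  unfold sp
  rw [decide_eq_false_iff_not]
  omega

theorem sp_t (i : ℕ) : sp (3 * i + 1) = true := by
  unfold sp
  rw [decide_eq_true_eq]
  omega

theorem right : ∀ (Q : List ℕ) (q : ℕ) (v : List ℕ), Same v ((3 * q + 2) :: pr Q) →
    v = (3 * q + 2) :: pr Q := by
  intro Q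
  induction Q with
  | nil =>
    intro q v h
    exact List.perm_singleton.1 (last h)
  | cons q' Q ih =>
    intro q v h
    have e : (3 * q + 2) :: pr (q' :: Q) =
        [3 * q + 2] ++ (3 * q' + 1) :: ((3 * q' + 2) :: pr Q) := by
      unfold pr
      rw [List.flatMap_cons]
      rfl
    rw [e] at h ⊢
    obtain ⟨A', v', e1, hp, hs⟩ := step (by intro c hc; rw [List.mem_singleton] at hc; subst hc; exact sp_z q)
      (sp_t q') h
    rw [e1, ih q' v' hs, List.perm_singleton.1 hp]

theorem left : ∀ (P : List ℕ) (D Q v : List ℕ), Same v (pl P ++ (zz D ++ pr Q)) →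
    ∃ D', D'.Perm D ∧ v = pl P ++ (zz D' ++ pr Q) := by
  intro P
  induction P with
  | nil =>
    intro D Q v h
    have e0 : pl [] = [] := rfl
    rw [e0, List.nil_append] at h
    rw [e0]
    cases Q with
    | nil =>
      have e1 : pr [] = [] := rfl
      rw [e1, List.append_nil] at h
      obtain ⟨D', h1, h2⟩ := zz_perm (last h)
      exact ⟨D', h1, by rw [e1, List.append_nil, List.nil_append, h2]⟩
    | cons q Q =>
      have e1 : pr (q :: Q) = (3 * q + 1) :: ((3 * q + 2) :: pr Q) := by
        unfold pr
        rw [List.flatMap_cons]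
        rfl
      rw [e1] at h ⊢
      obtain ⟨A', v', e2, hp, hs⟩ := step (by
        intro c hc
        unfold zz at hc
        obtain ⟨i, _, hi⟩ := List.mem_map.1 hc
        subst hi
        exact sp_z i) (sp_t q) h
      obtain ⟨D', h1, h2⟩ := zz_perm hp
      exact ⟨D', h1, by rw [e2, right Q q v' hs, h2, List.nil_append]⟩
  | cons i P ih =>
    intro D Q v h
    have e : ∀ X, pl (i :: P) ++ X = [3 * i + 2] ++ (3 * i + 1) :: (pl P ++ X) := by
      intro X
      unfold pl
      rw [List.flatMap_cons]
      rfl
    rw [e] at h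
    obtain ⟨A', v', e1, hp, hs⟩ := step (by intro c hc; rw [List.mem_singleton] at hc; subst hc; exact sp_z i)
      (sp_t i) h
    obtain ⟨D', h1, h2⟩ := ih D Q v' hs
    exact ⟨D', h1, by rw [e1, List.perm_singleton.1 hp, e, h2]⟩

/-! ### the four words -/

theorem ins {t : ℕ} : ∀ (u L : List ℕ), u.filter (fun c => decide (c ≠ t)) = L →
    u.count t = 1 → ∃ A B, L = A ++ B ∧ u = A ++ t :: B := by
  intro u
  induction u with
  | nil => intro L _ h; simp at h
  | cons a u ih =>
    intro L h1 h2
    by_cases ha : a = t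
    · subst ha
      rw [List.filter_cons_of_neg (by simp)] at h1
      rw [List.count_cons_self] at h2
      have h3 : a ∉ u := List.count_eq_zero.1 (by omega)
      refine ⟨[], L, rfl, ?_⟩
      rw [← h1, List.nil_append]
      congr 1
      symm
      rw [List.filter_eq_self]
      intro x hx
      rw [decide_eq_true_eq]
      rintro rfl
      exact h3 hx
    · rw [List.filter_cons_of_pos (by simp [ha])] at h1
      rw [List.count_cons_of_ne ha] at h2
      obtain ⟨A, B, e1, e2⟩ := ih _ rfl h2
      exact ⟨a :: A, B, by rw [← h1, e1, List.cons_append], by rw [e2, List.cons_append]⟩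

theorem four {z t t' : ℕ} {u : List ℕ} (h1 : u.filter (fun c => decide (c ≠ t')) = [z, t, z])
    (h2 : u.count t' = 1) : u = [t', z, t, z] ∨ u = [z, t', t, z] ∨ u = [z, t, t', z] ∨
      u = [z, t, z, t'] := by
  obtain ⟨A, B, e1, e2⟩ := ins u _ h1 h2
  subst e2
  match A, e1 with
  | [], e1 =>
    rw [List.nil_append] at e1
    left; rw [← e1]; simp
  | [a], e1 =>
    simp only [List.cons_append, List.nil_append, List.cons.injEq] at e1
    right; left; rw [← e1.1, ← e1.2]; simp
  | [a, b], e1 =>
    simp only [List.cons_append, List.nil_append, List.cons.injEq] at e1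
    right; right; left; rw [← e1.1, ← e1.2.1, ← e1.2.2]; simp
  | [a, b, c], e1 =>
    simp only [List.cons_append, List.nil_append, List.cons.injEq] at e1
    right; right; right; rw [← e1.1, ← e1.2.1, ← e1.2.2.1, ← e1.2.2.2]; simp
  | a :: b :: c :: d :: A, e1 =>
    simp at e1

theorem iso4 {β : FIC} (H : Iso3 β) {z t t' : ℕ} (hzt : z ≠ t) (hzt' : z ≠ t') (htt : t ≠ t')
    {u u' : List ℕ} (h : RR β u u') (h1 : u.filter (fun c => decide (c ≠ t')) = [z, t, z])
    (h2 : u.count t' = 1) (h2' : u'.count t' = 1) : u' = u := by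
  have h1' : u'.filter (fun c => decide (c ≠ t')) = [z, t, z] := by
    have := h.filter (fun c => decide (c ≠ t'))
    rw [h1] at this
    exact iso_aba H hzt this
  have f1 := h.filter (fun c => decide (c ≠ z))
  have f2 := h.filter (fun c => decide (c ≠ t))
  rcases four h1 h2 with e | e | e | e <;> rcases four h1' h2' with e' | e' | e' | e' <;>
    subst e <;> subst e' <;> first | rfl | (exfalso)
  all_goals
    first
    | (have := iso_ab H (a := t') (b := t) (Ne.symm htt) (by simpa [hzt, hzt', htt, Ne.symm hzt, Ne.symm hzt', Ne.symm htt] using f1)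
       simp [htt, Ne.symm htt] at this; done)
    | (have := iso_ab H (a := t) (b := t') htt (by simpa [hzt, hzt', htt, Ne.symm hzt, Ne.symm hzt', Ne.symm htt] using f1)
       simp [htt, Ne.symm htt] at this; done)
    | (have := iso_aba H (a := z) (b := t') hzt' (by simpa [hzt, hzt', htt, Ne.symm hzt, Ne.symm hzt', Ne.symm htt] using f2)
       simp [hzt', Ne.symm hzt'] at this; done)
    | (have := iso_aba H (a := z) (b := t') hzt' (by simpa [hzt, hzt', htt, Ne.symm hzt, Ne.symm hzt', Ne.symm htt] using f2.symm)
       simp [hzt', Ne.symm hzt'] at this; done)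

/-! ### counting in the word -/

theorem pl_filter_zt (i : ℕ) : ∀ P : List ℕ, P.Nodup →
    (pl P).filter (fun c => decide (c = 3 * i + 2 ∨ c = 3 * i + 1)) =
      if i ∈ P then [3 * i + 2, 3 * i + 1] else [] := by
  intro P
  induction P with
  | nil => intro _; simp [pl]
  | cons a P ih =>
    intro h
    rw [List.nodup_cons] at h
    have e : pl (a :: P) = (3 * a + 2) :: (3 * a + 1) :: pl P := by
      unfold pl
      rw [List.flatMap_cons]
      rfl
    rw [e]
    by_cases ha : a = i
    · subst ha
      rw [List.filter_cons_of_pos (by simp), List.filter_cons_of_pos (by simp), ih h.2,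
        if_neg h.1, if_pos (by simp)]
    · rw [List.filter_cons_of_neg (by rw [decide_eq_true_eq]; omega),
        List.filter_cons_of_neg (by rw [decide_eq_true_eq]; omega), ih h.2]
      simp [Ne.symm ha]

theorem pr_filter_zt (i : ℕ) : ∀ P : List ℕ, P.Nodup →
    (pr P).filter (fun c => decide (c = 3 * i + 2 ∨ c = 3 * i + 1)) =
      if i ∈ P then [3 * i + 1, 3 * i + 2] else [] := by
  intro P
  induction P with
  | nil => intro _; simp [pr]
  | cons a P ih =>
    intro h
    rw [List.nodup_cons] at h
    have e : pr (a :: P) = (3 * a + 1) :: (3 * a + 2) :: pr P := by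
      unfold pr
      rw [List.flatMap_cons]
      rfl
    rw [e]
    by_cases ha : a = i
    · subst ha
      rw [List.filter_cons_of_pos (by simp), List.filter_cons_of_pos (by simp), ih h.2,
        if_neg h.1, if_pos (by simp)]
    · rw [List.filter_cons_of_neg (by rw [decide_eq_true_eq]; omega),
        List.filter_cons_of_neg (by rw [decide_eq_true_eq]; omega), ih h.2]
      simp [Ne.symm ha]

theorem zz_filter_zt (i : ℕ) : ∀ P : List ℕ, P.Nodup →
    (zz P).filter (fun c => decide (c = 3 * i + 2 ∨ c = 3 * i + 1)) =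
      if i ∈ P then [3 * i + 2] else [] := by
  intro P
  induction P with
  | nil => intro _; simp [zz]
  | cons a P ih =>
    intro h
    rw [List.nodup_cons] at h
    have e : zz (a :: P) = (3 * a + 2) :: zz P := rfl
    rw [e]
    by_cases ha : a = i
    · subst ha
      rw [List.filter_cons_of_pos (by simp), ih h.2, if_neg h.1, if_pos (by simp)]
    · rw [List.filter_cons_of_neg (by rw [decide_eq_true_eq]; omega), ih h.2]
      simp [Ne.symm ha]

theorem pl_filter_sp : ∀ P : List ℕ, (pl P).filter sp = ts P := by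
  intro P
  induction P with
  | nil => rfl
  | cons a P ih =>
    have e : pl (a :: P) = (3 * a + 2) :: (3 * a + 1) :: pl P := by
      unfold pl
      rw [List.flatMap_cons]
      rfl
    rw [e, List.filter_cons_of_neg (by rw [sp_z]; decide), List.filter_cons_of_pos (sp_t a), ih]
    rfl

theorem pr_filter_sp : ∀ P : List ℕ, (pr P).filter sp = ts P := by
  intro P
  induction P with
  | nil => rfl
  | cons a P ih =>
    have e : pr (a :: P) = (3 * a + 1) :: (3 * a + 2) :: pr P := by
      unfold pr
      rw [List.flatMap_cons]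
      rfl
    rw [e, List.filter_cons_of_pos (sp_t a), List.filter_cons_of_neg (by rw [sp_z]; decide), ih]
    rfl

theorem zz_filter_sp (P : List ℕ) : (zz P).filter sp = [] := by
  rw [List.filter_eq_nil_iff]
  intro c hc
  unfold zz at hc
  obtain ⟨i, _, hi⟩ := List.mem_map.1 hc
  subst hi
  rw [sp_z]
  decide

theorem w_zt {P Q D : List ℕ} (hD : D.Nodup) (hp : (P ++ Q).Perm D) {i : ℕ} (hi : i ∈ D) :
    (pl P ++ (zz D ++ pr Q)).filter (fun c => decide (c = 3 * i + 2 ∨ c = 3 * i + 1)) =
      [3 * i + 2, 3 * i + 1, 3 * i + 2] := by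
  have hn := hp.nodup_iff.2 hD
  rw [List.nodup_append] at hn
  rw [List.filter_append, List.filter_append, pl_filter_zt i P hn.1, zz_filter_zt i D hD,
    pr_filter_zt i Q hn.2.1, if_pos hi]
  have hm := hp.mem_iff.2 hi
  rw [List.mem_append] at hm
  rcases hm with hm | hm
  · have : i ∉ Q := fun h => hn.2.2 i hm i h rfl
    rw [if_pos hm, if_neg this]
    rfl
  · have : i ∉ P := fun h => hn.2.2 i h i hm rfl
    rw [if_pos hm, if_neg this]
    rfl

theorem w_sp (P Q D : List ℕ) : (pl P ++ (zz D ++ pr Q)).filter sp = ts (P ++ Q) := by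
  rw [List.filter_append, List.filter_append, pl_filter_sp, zz_filter_sp, pr_filter_sp,
    List.nil_append]
  unfold ts
  rw [List.map_append]

theorem ts_nodup {L : List ℕ} (h : L.Nodup) : (ts L).Nodup := by
  unfold ts
  exact h.map (fun a b hab => by simpa using hab)

theorem count_filter_of (p : ℕ → Bool) {c : ℕ} (hc : p c = true) (l : List ℕ) :
    (l.filter p).count c = l.count c := List.count_filter hc

theorem ske : SkeStmt := by
  intro β H P Q D v hD hp h
  apply left
  have hnPQ := hp.nodup_iff.2 hD
  have hsp : v.filter sp = (pl P ++ (zz D ++ pr Q)).filter sp := by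
    have h1 := h.filter sp
    refine Pool.Agent.MVD.H10.lin β H _ _ ?_ h1
    rw [w_sp]
    exact ts_nodup hnPQ
  have hnd : ((pl P ++ (zz D ++ pr Q)).filter sp).Nodup := by
    rw [w_sp]
    exact ts_nodup hnPQ
  -- the letters
  have hcon : ∀ c, c ∈ v ↔ c ∈ pl P ++ (zz D ++ pr Q) := by
    intro c
    constructor
    · intro hc
      by_contra hcon
      exact h.content H hcon hc
    · intro hc
      by_contra hcon
      exact h.symm.content H hcon hc
  have hlet : ∀ c ∈ pl P ++ (zz D ++ pr Q), ∃ i ∈ D, c = 3 * i + 2 ∨ c = 3 * i + 1 := by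
    intro c hc
    rw [List.mem_append, List.mem_append] at hc
    rcases hc with hc | hc | hc
    · unfold pl at hc
      obtain ⟨i, hi, hc⟩ := List.mem_flatMap.1 hc
      exact ⟨i, hp.mem_iff.1 (List.mem_append_left _ hi), by simpa using hc⟩
    · unfold zz at hc
      obtain ⟨i, hi, hc⟩ := List.mem_map.1 hc
      exact ⟨i, hi, Or.inl hc.symm⟩
    · unfold pr at hc
      obtain ⟨i, hi, hc⟩ := List.mem_flatMap.1 hc
      refine ⟨i, hp.mem_iff.1 (List.mem_append_right _ hi), ?_⟩
      simp only [List.mem_cons, List.not_mem_nil, or_false] at hc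
      exact hc.symm
  have hzt : ∀ i ∈ D, v.filter (fun c => decide (c = 3 * i + 2 ∨ c = 3 * i + 1)) =
      [3 * i + 2, 3 * i + 1, 3 * i + 2] := by
    intro i hi
    have h1 := h.filter (fun c => decide (c = 3 * i + 2 ∨ c = 3 * i + 1))
    rw [w_zt hD hp hi] at h1
    exact iso_aba H (by omega) h1
  -- the counts
  have hcnt : ∀ c, v.count c = (pl P ++ (zz D ++ pr Q)).count c := by
    intro c
    by_cases hc : c ∈ pl P ++ (zz D ++ pr Q)
    · obtain ⟨i, hi, hci⟩ := hlet c hc
      have hpc : (fun c => decide (c = 3 * i + 2 ∨ c = 3 * i + 1)) c = true := by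
        simpa using hci
      rw [← count_filter_of (fun c => decide (c = 3 * i + 2 ∨ c = 3 * i + 1)) hpc v,
        ← count_filter_of (fun c => decide (c = 3 * i + 2 ∨ c = 3 * i + 1)) hpc (pl P ++ _),
        hzt i hi,
        w_zt hD hp hi]
    · rw [List.count_eq_zero.2 hc, List.count_eq_zero.2 (fun hm => hc ((hcon c).1 hm))]
  refine ⟨hsp, hnd, hcnt, ?_⟩
  intro t c ht
  by_cases htm : t ∈ pl P ++ (zz D ++ pr Q)
  swap
  · rw [bf_notMem c htm, bf_notMem c (fun hm => htm ((hcon t).1 hm)), hcnt]
  by_cases hcm : c ∈ pl P ++ (zz D ++ pr Q)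
  swap
  · have g : ∀ l : List ℕ, c ∉ l → bf t c l = 0 := by
      intro l hl
      unfold bf
      rw [List.count_eq_zero]
      intro hm
      exact hl ((List.takeWhile_sublist _).mem hm)
    rw [g _ hcm, g _ (fun hm => hcm ((hcon c).1 hm))]
  obtain ⟨j, hj, htj⟩ := hlet t htm
  have htj : t = 3 * j + 1 := by
    rcases htj with e | e
    · rw [e, sp_z] at ht
      exact absurd ht (by decide)
    · exact e
  obtain ⟨i, hi, hci⟩ := hlet c hcm
  -- the filter to three letters
  have key : v.filter (fun c => decide (c = 3 * i + 2 ∨ c = 3 * i + 1 ∨ c = 3 * j + 1)) =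
      (pl P ++ (zz D ++ pr Q)).filter
        (fun c => decide (c = 3 * i + 2 ∨ c = 3 * i + 1 ∨ c = 3 * j + 1)) := by
    by_cases hij : i = j
    · subst hij
      have e : ∀ l : List ℕ,
          l.filter (fun c => decide (c = 3 * i + 2 ∨ c = 3 * i + 1 ∨ c = 3 * i + 1)) =
          l.filter (fun c => decide (c = 3 * i + 2 ∨ c = 3 * i + 1)) := by
        intro l
        apply List.filter_congr
        intro x _
        simp
      rw [e, e, hzt i hi, w_zt hD hp hi]
    · have h1 := h.filter (fun c => decide (c = 3 * i + 2 ∨ c = 3 * i + 1 ∨ c = 3 * j + 1))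
      have pj : (fun c => decide (c = 3 * i + 2 ∨ c = 3 * i + 1 ∨ c = 3 * j + 1)) (3 * j + 1) =
          true := by simp
      have hcj : (pl P ++ (zz D ++ pr Q)).count (3 * j + 1) = 1 := by
        have h2 : (fun c => decide (c = 3 * j + 2 ∨ c = 3 * j + 1)) (3 * j + 1) = true := by
          simp
        rw [← count_filter_of (fun c => decide (c = 3 * j + 2 ∨ c = 3 * j + 1)) h2,
          w_zt hD hp hj]
        simp
      refine iso4 H (z := 3 * i + 2) (t := 3 * i + 1) (t' := 3 * j + 1) (by omega) (by omega)
        (by omega) h1 ?_ ?_ ?_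
      · rw [List.filter_filter, ← w_zt hD hp hi]
        apply List.filter_congr
        intro x _
        rw [Bool.eq_iff_iff]
        simp only [Bool.and_eq_true, decide_eq_true_eq]
        omega
      · rw [count_filter_of _ pj, hcj]
      · rw [count_filter_of _ pj, hcnt, hcj]
  have pt : (fun c => decide (c = 3 * i + 2 ∨ c = 3 * i + 1 ∨ c = 3 * j + 1)) t = true := by
    simp [htj]
  have pc : (fun c => decide (c = 3 * i + 2 ∨ c = 3 * i + 1 ∨ c = 3 * j + 1)) c = true := by
    rw [decide_eq_true_eq]
    tauto
  rw [← bf_filter (fun c => decide (c = 3 * i + 2 ∨ c = 3 * i + 1 ∨ c = 3 * j + 1)) pt pc v,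
    ← bf_filter (fun c => decide (c = 3 * i + 2 ∨ c = 3 * i + 1 ∨ c = 3 * j + 1)) pt pc
      (pl P ++ _), key]

end Pool.Agent.MWI.H27
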